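import Pool.Agent.H823R2.LP.Data

/-!
Kernel verification of the integer data.
-/

set_option maxRecDepth 100000

namespace Pool.Agent.H823R2.LP.Num

theorem gram : ∀ a < 6, ∀ b < 6, sumTo (fun j => va a 0 j * va b 0 j + va a 1 j * va b 1 j) 191
    = if a = b then (Nn a : ℤ) else 0 := by
  decide +kernel

theorem X_eq : ∀ a < 6, ∀ b < 6, sumTo (fun j => ((j : ℤ) - 95) *
    (va a 0 j * va b 0 j + va a 1 j * va b 1 j)) 191 = XT a b := by
  decide +kernel

theorem X2_eq : ∀ a < 6, sumTo (fun j => (((j : ℤ) - 95) * ((j : ℤ) - 95)) *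
    (va a 0 j * va a 0 j + va a 1 j * va a 1 j)) 191 = X2T a := by
  decide +kernel

theorem kap_eq : ∀ a < 6, kap a * Lam * Nn a = ell a ^ 2 * Q := by
  decide +kernel

theorem c1 : ∀ j < 191, 2 * (n1 j : ℤ) * Q ≤ (AA j + BB j) * G := by
  decide +kernel

theorem c2 : ∀ j < 191, (n1 j : ℤ) * w j * Q ≤ (AA j * BB j - CC j * CC j) * (G * G) := by
  decide +kernel

theorem s1 : sumTo (fun j => (n1 j : ℤ)) 191 * 10 ^ 12 ≤ (10 ^ 12 - 990858201011) * G := by
  decide +kernel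

theorem s2 : sumTo (fun j => w j * w j / (n2 j : ℤ) + 1) 191 * 10 ^ 12 ≤ 990722678688 * (Q * Q * G) := by
  decide +kernel

theorem s3 : sumTo (fun j => ((exj 0 j : ℤ) - G2) * (n1 j * Q) + ((exj 2 j : ℤ) - G2) * w j) 191
    * 10 ^ 12 ≤ 12654214145096 * (Q * G) := by
  decide +kernel

theorem s4 : sumTo (fun j => ((exj 1 j : ℤ) - G3) * (n1 j * Q) + ((exj 3 j : ℤ) - G3) * w j) 191
    * 10 ^ 12 ≤ -12060313447272 * (Q * G) := by
  decide +kernel

end Pool.Agent.H823R2.LP.Num
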