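import Pool.Agent.H823R2.LP.EuclidSite

/-!
Final numerical inequality: one-site data with `c > 0.603 log 2`.
-/

open Finset Pool.Agent.H390R2.LP

set_option linter.unusedSectionVars false
set_option maxRecDepth 100000

namespace Pool.Agent.H823R2.LP.Num

theorem sqrt_lam (a b : Fin 6) : √(lam a * lam b) = (ell a : ℝ) * ell b / Lam := by
  have h : lam a * lam b = ((ell a : ℝ) * ell b / Lam) ^ 2 := by
    rw [lam, lam]; field_simp
  rw [h, Real.sqrt_sq]
  have := Lam_pos
  positivity

theorem lam_nonneg (a : Fin 6) : 0 ≤ lam a := by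
  have := Lam_pos
  rw [lam]; positivity

theorem lam_sum : ∑ a, lam a = 1 := by
  simp only [lam, Fin.sum_univ_six]
  norm_num [ell, Lam]

theorem energy_up :
    2 * (∑ a, lam a * ∑ ω, V0 a ω ^ 2 * (((ω.1 : ℕ) : ℝ) - 95) ^ 2
          - ∑ a, ∑ b, √(lam a * lam b) * (∑ ω, V0 a ω * (((ω.1 : ℕ) : ℝ) - 95) * V0 b ω) ^ 2)
      ≤ 362.44732526 := by
  simp only [V0_X, V0_X2, sqrt_lam, div_pow, mul_pow]
  have hs : ∀ a : Fin 6, √(Nn a : ℝ) ^ 2 = (Nn a : ℝ) := fun a => Real.sq_sqrt (Nn_pos a).le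
  simp only [hs, lam, Fin.sum_univ_six]
  norm_num [ell, Lam, Nn, XT, X2T]

theorem log_ell : Real.log 62208 = 8 * Real.log 2 + 5 * Real.log 3 ∧
    Real.log 6561 = 8 * Real.log 3 ∧ Real.log 486 = Real.log 2 + 5 * Real.log 3 ∧
    Real.log 20736 = 8 * Real.log 2 + 4 * Real.log 3 ∧
    Real.log 1944 = 3 * Real.log 2 + 5 * Real.log 3 ∧
    Real.log 1296 = 4 * Real.log 2 + 4 * Real.log 3 := by
  have h : ∀ e f : ℕ, Real.log ((2 : ℝ) ^ e * 3 ^ f) = e * Real.log 2 + f * Real.log 3 := by
    intro e f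
    rw [Real.log_mul (by positivity) (by positivity), Real.log_pow, Real.log_pow]
  refine ⟨?_, ?_, ?_, ?_, ?_, ?_⟩
  · have := h 8 5; norm_num at this; linarith
  · have := h 0 8; norm_num at this; linarith
  · have := h 1 5; norm_num at this; linarith
  · have := h 8 4; norm_num at this; linarith
  · have := h 3 5; norm_num at this; linarith
  · have := h 4 4; norm_num at this; linarith

/-- upper bound of the entropy of the state -/
theorem entropy_up : ∑ a, Real.negMulLog (lam a) ≤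
    13 * Real.log 2 + 12 * Real.log 3 + 4348558629 / (2 ^ 13 * 3 ^ 12) - 1
    - 2 / 4348558629 * (3869835264 * (8 * Real.log 2 + 5 * Real.log 3)
      + 43046721 * (8 * Real.log 3) + 236196 * (Real.log 2 + 5 * Real.log 3)
      + 429981696 * (8 * Real.log 2 + 4 * Real.log 3)
      + 3779136 * (3 * Real.log 2 + 5 * Real.log 3)
      + 1679616 * (4 * Real.log 2 + 4 * Real.log 3)) := by
  obtain ⟨l1, l2, l3, l4, l5, l6⟩ := log_ell
  have hL : Real.log 4348558629 ≤ 13 * Real.log 2 + 12 * Real.log 3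
      + 4348558629 / (2 ^ 13 * 3 ^ 12) - 1 := by
    have h := Real.log_le_sub_one_of_pos (x := 4348558629 / (2 ^ 13 * 3 ^ 12)) (by positivity)
    rw [Real.log_div (by positivity) (by positivity), Real.log_mul (by positivity) (by positivity),
      Real.log_pow, Real.log_pow] at h
    push_cast at h
    linarith
  have hterm : ∀ x : ℝ, 0 < x → Real.negMulLog (x ^ 2 / 4348558629)
      = x ^ 2 / 4348558629 * (Real.log 4348558629 - 2 * Real.log x) := by
    intro x hx
    rw [Real.negMulLog, Real.log_div (by positivity) (by norm_num), Real.log_pow]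
    push_cast
    ring
  have e : ∑ a, Real.negMulLog (lam a) =
      Real.log 4348558629 - 2 / 4348558629 * (3869835264 * Real.log 62208
      + 43046721 * Real.log 6561 + 236196 * Real.log 486 + 429981696 * Real.log 20736
      + 3779136 * Real.log 1944 + 1679616 * Real.log 1296) := by
    simp only [lam, Fin.sum_univ_six]
    have hl : (Lam : ℝ) = 4348558629 := by norm_num [Lam]
    have v0 : ((ell ((0 : Fin 6) : ℕ) : ℕ) : ℝ) = 62208 := by norm_num [ell]
    have v1 : ((ell ((1 : Fin 6) : ℕ) : ℕ) : ℝ) = 6561 := by norm_num [ell]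
    have v2 : ((ell ((2 : Fin 6) : ℕ) : ℕ) : ℝ) = 486 := by norm_num [ell]
    have v3 : ((ell ((3 : Fin 6) : ℕ) : ℕ) : ℝ) = 20736 := by norm_num [ell]
    have v4 : ((ell ((4 : Fin 6) : ℕ) : ℕ) : ℝ) = 1944 := by norm_num [ell]
    have v5 : ((ell ((5 : Fin 6) : ℕ) : ℕ) : ℝ) = 1296 := by norm_num [ell]
    rw [hl, v0, v1, v2, v3, v4, v5, hterm _ (by norm_num), hterm _ (by norm_num),
      hterm _ (by norm_num), hterm _ (by norm_num), hterm _ (by norm_num), hterm _ (by norm_num)]
    ring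
  rw [e, l1, l2, l3, l4, l5, l6]
  linarith

/-- the numerical inequality -/
theorem numeric {S h E m : ℝ} (hm : 1000000 ≤ m)
    (hS : S = ∑ a, Real.negMulLog (lam a))
    (hE : E ≤ 362.44732526 + (1 - 1 / m ^ 2) / 6)
    (hh : (0.990858201011 : ℝ) - 0.990722678688 - 12.654214145096 * Real.log 2
      + 12.060313447272 * Real.log 3 + Real.log m ≤ h) :
    0.603 * Real.log 2 < h - S + Real.log (1 / m) - 1 / 2 * Real.log (2 * Real.pi * Real.exp 1)
      - Real.log ((√E + 1 / m) / 2) := by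
  have hm0 : 0 < m := by linarith
  have hS' := entropy_up
  rw [← hS] at hS'
  have hsq : √E ≤ 19.042427 := by
    rw [Real.sqrt_le_left (by norm_num)]
    have : 0 < 1 / m ^ 2 := by positivity
    nlinarith
  have hm1 : 1 / m ≤ 0.000001 := by
    rw [div_le_iff₀ hm0]; linarith
  have hy : √E + 1 / m ≤ 19.04243 := by linarith
  have hy0 : 0 < √E + 1 / m := by positivity
  have hlogy : Real.log (√E + 1 / m) ≤ Real.log 19.04243 := Real.log_le_log hy0 hy
  have hpi0 := Real.pi_pos
  have hpi : Real.pi < 3.141593 := Real.pi_lt_d6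
  have hx : Real.log (Real.pi) + 2 * Real.log 19.04243 ≤
      26 * Real.log 2 - 10 * Real.log 3 + 3.141593 * 19.04243 ^ 2 / (2 ^ 26 / 3 ^ 10) - 1 := by
    have h1 : Real.log (Real.pi) ≤ Real.log 3.141593 := Real.log_le_log hpi0 hpi.le
    have h := Real.log_le_sub_one_of_pos
      (x := 3.141593 * 19.04243 ^ 2 / (2 ^ 26 / 3 ^ 10)) (by positivity)
    rw [Real.log_div (by positivity) (by positivity), Real.log_mul (by positivity) (by positivity),
      Real.log_pow, Real.log_div (by positivity) (by positivity), Real.log_pow,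
      Real.log_pow] at h
    push_cast at h
    linarith
  have hA : Real.log (2 * Real.pi * Real.exp 1) = Real.log 2 + Real.log Real.pi + 1 := by
    rw [Real.log_mul (by positivity) (by positivity), Real.log_mul (by norm_num) hpi0.ne',
      Real.log_exp]
  have hB : Real.log (1 / m) = - Real.log m := by rw [one_div, Real.log_inv]
  have hC : Real.log ((√E + 1 / m) / 2) = Real.log (√E + 1 / m) - Real.log 2 :=
    Real.log_div hy0.ne' (by norm_num)
  rw [hA, hB, hC]
  have a1 := Real.log_two_gt_d9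
  have a2 := Real.log_two_lt_d9
  have a3 := Real.log_three_gt_d9
  have a4 := Real.log_three_lt_d9
  norm_num at hx hh hS' hlogy ⊢
  linarith

end Pool.Agent.H823R2.LP.Num

namespace Pool.Agent.H823R2.LP

theorem euclid_site_m (m : ℕ) (hm : 1000000 ≤ m) :
    ∃ s : Site (Fin (191 * m) × Fin 2) (Fin (191 * m)),
    0.603 * Real.log 2 < s.h - s.S + Real.log (1 / (m : ℝ))
      - 1 / 2 * Real.log (2 * Real.pi * Real.exp 1)
      - Real.log ((√(s.E (fun (_ : Unit) (x : Fin (191 * m)) => 1 / (m : ℝ) * ((x : ℕ) : ℝ)))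
        + 1 / (m : ℝ)) / 2) := by
  have hm0 : 0 < m := by omega
  obtain ⟨s, hS, hE, hh⟩ := exists_fine_site (m := m) hm0 Num.V0 Num.V0_orth Num.lam
    Num.lam_nonneg Num.lam_sum 95 (fun j => (Num.n1 j : ℝ) / Num.G) (fun j => (Num.n2 j : ℝ) / Num.G)
    (fun j => div_pos (Num.n1_pos j) Num.G_pos)
    (by
      intro j
      have h := Num.c1 j j.2
      have h' : (2 * (Num.n1 j : ℝ)) * Num.Q ≤ ((Num.AA j : ℝ) + Num.BB j) * Num.G := by
        exact_mod_cast h
      rw [Num.blk00, Num.blk11, ← add_div, mul_div_assoc', div_le_div_iff₀ Num.G_pos Num.Q_pos]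
      exact h')
    (by
      intro j
      have h := Num.c2 j j.2
      have h' : (Num.n1 j : ℝ) * Num.w j * Num.Q
          ≤ ((Num.AA j : ℝ) * Num.BB j - Num.CC j * Num.CC j) * (Num.G * Num.G) := by
        exact_mod_cast h
      have hQ := Num.Q_pos
      have hG := Num.G_pos
      rw [Num.TT, Num.blk00, Num.blk11, Num.blk01]
      have e1 : (Num.n1 j : ℝ) / Num.G * ((Num.w j : ℝ) / (Num.Q * Num.G))
          = ((Num.n1 j : ℝ) * Num.w j * Num.Q) / (Num.Q ^ 2 * Num.G ^ 2) := by
        field_simp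
      have e2 : (Num.AA j : ℝ) / Num.Q * ((Num.BB j : ℝ) / Num.Q) - ((Num.CC j : ℝ) / Num.Q) ^ 2
          = (((Num.AA j : ℝ) * Num.BB j - Num.CC j * Num.CC j) * (Num.G * Num.G)) /
            (Num.Q ^ 2 * Num.G ^ 2) := by
        field_simp
      rw [e1, e2]
      gcongr)
    (fun j => div_pos (Num.n2_pos j) Num.G_pos)
  refine ⟨s, ?_⟩
  have hf : (fun (_ : Unit) (x : Fin (191 * m)) => 1 / (m : ℝ) * ((x : ℕ) : ℝ))
      = (fun (_ : Unit) (x : Fin (191 * m)) => ((x : ℕ) : ℝ) / (m : ℝ)) := by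
    funext _ x
    ring
  rw [hf]
  refine Num.numeric (m := (m : ℝ)) (by exact_mod_cast hm) hS ?_ ?_
  · rw [hE]
    have := Num.energy_up
    linarith
  · refine le_trans ?_ hh
    have := Num.entropy_low
    linarith

/-- One-site data on a finite grid whose sphere packing exponent exceeds `0.603`
(the Kabatiansky–Levenshtein exponent is `0.59905576…`). -/
theorem euclid_site : ∃ (q : ℕ) (s : Site (Fin q × Fin 2) (Fin q)) (hg : ℝ), 0 < hg ∧
    0.603 * Real.log 2 < s.h - s.S + Real.log hg - 1 / 2 * Real.log (2 * Real.pi * Real.exp 1)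
      - Real.log ((√(s.E (fun (_ : Unit) (x : Fin q) => hg * ((x : ℕ) : ℝ))) + hg) / 2) := by
  obtain ⟨m, hm⟩ : ∃ m : ℕ, 1000000 ≤ m := ⟨_, le_refl _⟩
  obtain ⟨s, hs⟩ := euclid_site_m m hm
  have : (0 : ℝ) < m := by
    have : 0 < m := by omega
    exact_mod_cast this
  exact ⟨191 * m, s, 1 / (m : ℝ), by positivity, hs⟩

end Pool.Agent.H823R2.LP
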