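import Pool.Agent.H823R2.LP.FineSite
import Pool.Agent.H823R2.LP.Check

/-!
Existence of one-site data with `c > 0.603 log 2`.
-/

open Finset Pool.Agent.H390R2.LP

set_option linter.unusedSectionVars false
set_option maxRecDepth 100000

namespace Pool.Agent.H823R2.LP.Num

theorem sumTo_eq (f : ℕ → ℤ) (n : ℕ) : sumTo f n = ∑ j : Fin n, f j := by
  rw [Fin.sum_univ_eq_sum_range f n]
  induction n with
  | zero => simp [sumTo]
  | succ n ih => rw [Finset.sum_range_succ, ← ih, sumTo]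

theorem sumTo_cast (f : ℕ → ℤ) (n : ℕ) : ((sumTo f n : ℤ) : ℝ) = ∑ j : Fin n, (f j : ℝ) := by
  rw [sumTo_eq]; push_cast; rfl

theorem Nn_pos (a : Fin 6) : (0 : ℝ) < (Nn a : ℝ) := by
  have : ∀ a < 6, 0 < Nn a := by decide +kernel
  exact_mod_cast this a a.2

theorem Q_pos : (0 : ℝ) < (Q : ℝ) := by
  have : 0 < Q := by decide +kernel
  exact_mod_cast this

theorem G_pos : (0 : ℝ) < (G : ℝ) := by
  have : 0 < G := by decide +kernel
  exact_mod_cast this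

theorem Lam_pos : (0 : ℝ) < (Lam : ℝ) := by
  have : 0 < Lam := by decide +kernel
  exact_mod_cast this

/-- the coarse orthonormal family -/
noncomputable def V0 (a : Fin 6) (ω : Fin 191 × Fin 2) : ℝ := (va a ω.2 ω.1 : ℝ) / √(Nn a : ℝ)

noncomputable def lam (a : Fin 6) : ℝ := (ell a : ℝ) ^ 2 / Lam

theorem V0_mul (a b : Fin 6) (ω : Fin 191 × Fin 2) :
    V0 a ω * V0 b ω = (va a ω.2 ω.1 : ℝ) * (va b ω.2 ω.1 : ℝ) / (√(Nn a : ℝ) * √(Nn b : ℝ)) := by
  rw [V0, V0, div_mul_div_comm]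

theorem V0_orth (a b : Fin 6) : ∑ ω, V0 a ω * V0 b ω = if a = b then 1 else 0 := by
  simp only [V0_mul]
  rw [← Finset.sum_div, Fintype.sum_prod_type]
  simp only [Fin.sum_univ_two]
  have h := congrArg (fun z : ℤ => (z : ℝ)) (gram a a.2 b b.2)
  simp only [sumTo_cast] at h
  have h' : ∑ j : Fin 191, ((va a ((0 : Fin 2) : ℕ) j : ℝ) * (va b ((0 : Fin 2) : ℕ) j : ℝ)
      + (va a ((1 : Fin 2) : ℕ) j : ℝ) * (va b ((1 : Fin 2) : ℕ) j : ℝ))
      = if a = b then (Nn a : ℝ) else 0 := by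
    have e : ((if (a : ℕ) = (b : ℕ) then (Nn a : ℤ) else 0 : ℤ) : ℝ)
        = if a = b then (Nn a : ℝ) else 0 := by
      by_cases hab : a = b
      · subst hab; simp
      · have : (a : ℕ) ≠ (b : ℕ) := fun h => hab (Fin.ext h)
        simp [hab, this]
    rw [← e, ← h]
    refine Finset.sum_congr rfl fun j _ => ?_
    push_cast
    rfl
  rw [h']
  by_cases hab : a = b
  · subst hab
    simp only [if_true]
    rw [Real.mul_self_sqrt (Nn_pos a).le, div_self (Nn_pos a).ne']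
  · simp [hab]

theorem V0_X (a b : Fin 6) : ∑ ω, V0 a ω * (((ω.1 : ℕ) : ℝ) - 95) * V0 b ω
    = (XT a b : ℝ) / (√(Nn a : ℝ) * √(Nn b : ℝ)) := by
  have e : ∀ ω : Fin 191 × Fin 2, V0 a ω * (((ω.1 : ℕ) : ℝ) - 95) * V0 b ω
      = (((ω.1 : ℕ) : ℝ) - 95) * ((va a ω.2 ω.1 : ℝ) * (va b ω.2 ω.1 : ℝ)) /
        (√(Nn a : ℝ) * √(Nn b : ℝ)) := by
    intro ω
    rw [show V0 a ω * (((ω.1 : ℕ) : ℝ) - 95) * V0 b ω
      = (((ω.1 : ℕ) : ℝ) - 95) * (V0 a ω * V0 b ω) by ring, V0_mul]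
    ring
  simp only [e]
  rw [← Finset.sum_div, Fintype.sum_prod_type]
  simp only [Fin.sum_univ_two]
  have h := congrArg (fun z : ℤ => (z : ℝ)) (X_eq a a.2 b b.2)
  simp only [sumTo_cast] at h
  rw [← h]
  congr 1
  refine Finset.sum_congr rfl fun j _ => ?_
  push_cast
  simp only [Fin.val_zero, Fin.val_one]
  ring

theorem V0_X2 (a : Fin 6) : ∑ ω, V0 a ω ^ 2 * (((ω.1 : ℕ) : ℝ) - 95) ^ 2
    = (X2T a : ℝ) / (Nn a : ℝ) := by
  have e : ∀ ω : Fin 191 × Fin 2, V0 a ω ^ 2 * (((ω.1 : ℕ) : ℝ) - 95) ^ 2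
      = (((ω.1 : ℕ) : ℝ) - 95) ^ 2 * ((va a ω.2 ω.1 : ℝ) * (va a ω.2 ω.1 : ℝ)) /
        (Nn a : ℝ) := by
    intro ω
    rw [show V0 a ω ^ 2 * (((ω.1 : ℕ) : ℝ) - 95) ^ 2
      = (((ω.1 : ℕ) : ℝ) - 95) ^ 2 * (V0 a ω * V0 a ω) by ring, V0_mul,
      Real.mul_self_sqrt (Nn_pos a).le]
    ring
  simp only [e]
  rw [← Finset.sum_div, Fintype.sum_prod_type]
  simp only [Fin.sum_univ_two]
  have h := congrArg (fun z : ℤ => (z : ℝ)) (X2_eq a a.2)
  simp only [sumTo_cast] at h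
  rw [← h]
  congr 1
  refine Finset.sum_congr rfl fun j _ => ?_
  push_cast
  simp only [Fin.val_zero, Fin.val_one]
  ring

theorem lam_div (a : Fin 6) : lam a / (Nn a : ℝ) = (kap a : ℝ) / Q := by
  have h : ((kap a * Lam * Nn a : ℕ) : ℝ) = ((ell a ^ 2 * Q : ℕ) : ℝ) := by
    exact_mod_cast kap_eq a a.2
  push_cast at h
  rw [lam, div_div, div_eq_div_iff (mul_pos Lam_pos (Nn_pos a)).ne' Q_pos.ne', ← h]
  ring

theorem blk_eq (j : Fin 191) (i i' : Fin 2) : blk V0 lam j i i'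
    = (∑ a : Fin 6, (kap a : ℝ) * ((va a i j : ℝ) * (va a i' j : ℝ))) / Q := by
  rw [blk, Finset.sum_div]
  refine Finset.sum_congr rfl fun a _ => ?_
  have h1 : lam a * V0 a (j, i) * V0 a (j, i')
      = lam a / (Nn a : ℝ) * ((va a i j : ℝ) * (va a i' j : ℝ)) := by
    rw [mul_assoc, V0, V0, div_mul_div_comm, Real.mul_self_sqrt (Nn_pos a).le]
    ring
  rw [h1, lam_div]
  ring

theorem blk00 (j : Fin 191) : blk V0 lam j 0 0 = (AA j : ℝ) / Q := by
  rw [blk_eq, AA, sumTo_cast]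
  congr 1
  refine Finset.sum_congr rfl fun a _ => ?_
  push_cast
  rfl

theorem blk11 (j : Fin 191) : blk V0 lam j 1 1 = (BB j : ℝ) / Q := by
  rw [blk_eq, BB, sumTo_cast]
  congr 1
  refine Finset.sum_congr rfl fun a _ => ?_
  push_cast
  rfl

theorem blk01 (j : Fin 191) : blk V0 lam j 0 1 = (CC j : ℝ) / Q := by
  rw [blk_eq, CC, sumTo_cast]
  congr 1
  refine Finset.sum_congr rfl fun a _ => ?_
  push_cast
  rfl

theorem n1_pos (j : ℕ) : (0 : ℝ) < (n1 j : ℝ) := by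
  rw [n1]; positivity

theorem n2_pos (j : ℕ) : (0 : ℝ) < (n2 j : ℝ) := by
  rw [n2]; positivity

theorem log_n (e f : ℕ) : Real.log (((2 ^ e * 3 ^ f : ℕ) : ℝ) / G)
    = ((e : ℝ) - G2) * Real.log 2 + ((f : ℝ) - G3) * Real.log 3 := by
  rw [Real.log_div (by positivity) G_pos.ne', G]
  push_cast
  rw [Real.log_mul (by positivity) (by positivity), Real.log_mul (by positivity) (by positivity),
    Real.log_pow, Real.log_pow, Real.log_pow, Real.log_pow]
  ring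

theorem TT (j : Fin 191) : blk V0 lam j 0 0 + blk V0 lam j 1 1 - (n1 j : ℝ) / G
    = (w j : ℝ) / (Q * G) := by
  have hQ := Q_pos
  have hG := G_pos
  rw [blk00, blk11, w]
  push_cast
  field_simp

/-- the entropy bound (numerical part) -/
theorem entropy_low :
    (0.990858201011 : ℝ) - 0.990722678688 - 12.654214145096 * Real.log 2
      + 12.060313447272 * Real.log 3 ≤
    ∑ j : Fin 191, (-((n1 j : ℝ) / G) * Real.log ((n1 j : ℝ) / G)
      + (blk V0 lam j 0 0 + blk V0 lam j 1 1 - (n1 j : ℝ) / G) * (1 - Real.log ((n2 j : ℝ) / G))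
      - (blk V0 lam j 0 0 + blk V0 lam j 1 1 - (n1 j : ℝ) / G) ^ 2 / ((n2 j : ℝ) / G)) := by
  have hQ := Q_pos
  have hG := G_pos
  have hQG : (0 : ℝ) < Q * G := mul_pos hQ hG
  have hl2 : 0 < Real.log 2 := Real.log_pos (by norm_num)
  have hl3 : 0 < Real.log 3 := Real.log_pos (by norm_num)
  -- the trace of the coarse state
  have htr : ∑ j : Fin 191, (blk V0 lam j 0 0 + blk V0 lam j 1 1) = 1 := by
    have e : ∑ j : Fin 191, (blk V0 lam j 0 0 + blk V0 lam j 1 1)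
        = ∑ a, lam a * ∑ ω, V0 a ω * V0 a ω := by
      simp only [blk, Fintype.sum_prod_type, Fin.sum_univ_two]
      simp only [← Finset.sum_add_distrib, Finset.mul_sum]
      rw [Finset.sum_comm]
      exact Finset.sum_congr rfl fun a _ => Finset.sum_congr rfl fun j _ => by ring
    rw [e]
    simp only [V0_orth, if_true, mul_one]
    simp only [lam, Fin.sum_univ_six]
    norm_num [ell, Lam]
  have hw : ∑ j : Fin 191, (w j : ℝ) / (Q * G) = 1 - ∑ j : Fin 191, (n1 j : ℝ) / G := by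
    simp only [← TT]
    rw [Finset.sum_sub_distrib, htr]
  -- term by term
  have hterm : ∀ j : Fin 191,
      (w j : ℝ) / (Q * G) - ((w j * w j / (n2 j : ℤ) + 1 : ℤ) : ℝ) / (Q * Q * G)
      - Real.log 2 * ((((exj 0 j : ℤ) - G2) * (n1 j * Q) + ((exj 2 j : ℤ) - G2) * w j : ℤ) : ℝ) /
        (Q * G)
      - Real.log 3 * ((((exj 1 j : ℤ) - G3) * (n1 j * Q) + ((exj 3 j : ℤ) - G3) * w j : ℤ) : ℝ) /
        (Q * G)
      ≤ -((n1 j : ℝ) / G) * Real.log ((n1 j : ℝ) / G)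
      + (blk V0 lam j 0 0 + blk V0 lam j 1 1 - (n1 j : ℝ) / G) * (1 - Real.log ((n2 j : ℝ) / G))
      - (blk V0 lam j 0 0 + blk V0 lam j 1 1 - (n1 j : ℝ) / G) ^ 2 / ((n2 j : ℝ) / G) := by
    intro j
    rw [TT]
    have hn2 := n2_pos j
    have hlog1 : Real.log ((n1 j : ℝ) / G) = ((exj 0 j : ℝ) - G2) * Real.log 2
        + ((exj 1 j : ℝ) - G3) * Real.log 3 := log_n _ _
    have hlog2 : Real.log ((n2 j : ℝ) / G) = ((exj 2 j : ℝ) - G2) * Real.log 2
        + ((exj 3 j : ℝ) - G3) * Real.log 3 := log_n _ _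
    rw [hlog1, hlog2]
    have hdiv : (w j : ℝ) * w j / (n2 j : ℝ) ≤ ((w j * w j / (n2 j : ℤ) + 1 : ℤ) : ℝ) := by
      have hz : (0 : ℤ) < (n2 j : ℤ) := by exact_mod_cast hn2
      have h1 : w j * w j < (w j * w j / (n2 j : ℤ) + 1) * (n2 j : ℤ) := by
        have := Int.lt_ediv_add_one_mul_self (w j * w j) hz
        exact this
      have h2 : (w j : ℝ) * w j < ((w j * w j / (n2 j : ℤ) + 1 : ℤ) : ℝ) * (n2 j : ℝ) := by
        exact_mod_cast h1
      rw [div_le_iff₀ hn2]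
      exact h2.le
    have hsq : ((w j : ℝ) / (Q * G)) ^ 2 / ((n2 j : ℝ) / G)
        ≤ ((w j * w j / (n2 j : ℤ) + 1 : ℤ) : ℝ) / (Q * Q * G) := by
      have : ((w j : ℝ) / (Q * G)) ^ 2 / ((n2 j : ℝ) / G)
          = ((w j : ℝ) * w j / (n2 j : ℝ)) / (Q * Q * G) := by
        field_simp
      rw [this]
      gcongr
    have hrest : (w j : ℝ) / (Q * G)
      - Real.log 2 * ((((exj 0 j : ℤ) - G2) * (n1 j * Q) + ((exj 2 j : ℤ) - G2) * w j : ℤ) : ℝ) /
        (Q * G)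
      - Real.log 3 * ((((exj 1 j : ℤ) - G3) * (n1 j * Q) + ((exj 3 j : ℤ) - G3) * w j : ℤ) : ℝ) /
        (Q * G)
      = -((n1 j : ℝ) / G) * (((exj 0 j : ℝ) - G2) * Real.log 2
        + ((exj 1 j : ℝ) - G3) * Real.log 3)
      + (w j : ℝ) / (Q * G) * (1 - (((exj 2 j : ℝ) - G2) * Real.log 2
        + ((exj 3 j : ℝ) - G3) * Real.log 3)) := by
      push_cast
      field_simp
      ring
    linarith
  refine le_trans ?_ (Finset.sum_le_sum fun j _ => hterm j)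
  rw [Finset.sum_sub_distrib, Finset.sum_sub_distrib, Finset.sum_sub_distrib, hw]
  simp only [← Finset.sum_div, ← Finset.mul_sum]
  have t1 : (∑ j : Fin 191, (n1 j : ℝ)) / G ≤ 1 - 0.990858201011 := by
    have h := s1
    have h' : ((sumTo (fun j => (n1 j : ℤ)) 191 * 10 ^ 12 : ℤ) : ℝ)
        ≤ (((10 ^ 12 - 990858201011) * G : ℤ) : ℝ) := by exact_mod_cast h
    rw [Int.cast_mul, sumTo_cast] at h'
    push_cast at h'
    rw [div_le_iff₀ hG]
    linarith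
  have t2 : (∑ j : Fin 191, ((w j * w j / (n2 j : ℤ) + 1 : ℤ) : ℝ)) / (Q * Q * G)
      ≤ 0.990722678688 := by
    have h' : ((sumTo (fun j => w j * w j / (n2 j : ℤ) + 1) 191 * 10 ^ 12 : ℤ) : ℝ)
        ≤ ((990722678688 * (Q * Q * G) : ℤ) : ℝ) := by exact_mod_cast s2
    rw [Int.cast_mul, sumTo_cast] at h'
    rw [div_le_iff₀ (by positivity)]
    have e : ((990722678688 * (Q * Q * G) : ℤ) : ℝ) = 990722678688 * ((Q : ℝ) * Q * G) := by
      push_cast; ring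
    rw [e] at h'
    have e10 : (((10 : ℤ) ^ 12 : ℤ) : ℝ) = 10 ^ 12 := by push_cast; ring
    rw [e10] at h'
    linarith
  have t3 : (∑ j : Fin 191, ((((exj 0 j : ℤ) - G2) * (n1 j * Q) + ((exj 2 j : ℤ) - G2) * w j : ℤ)
      : ℝ)) / (Q * G) ≤ 12.654214145096 := by
    have h' : ((sumTo (fun j => ((exj 0 j : ℤ) - G2) * (n1 j * Q) + ((exj 2 j : ℤ) - G2) * w j) 191
        * 10 ^ 12 : ℤ) : ℝ) ≤ ((12654214145096 * (Q * G) : ℤ) : ℝ) := by exact_mod_cast s3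
    rw [Int.cast_mul, sumTo_cast] at h'
    rw [div_le_iff₀ (by positivity)]
    have e : ((12654214145096 * (Q * G) : ℤ) : ℝ) = 12654214145096 * ((Q : ℝ) * G) := by
      push_cast; ring
    rw [e] at h'
    have e10 : (((10 : ℤ) ^ 12 : ℤ) : ℝ) = 10 ^ 12 := by push_cast; ring
    rw [e10] at h'
    linarith
  have t4 : (∑ j : Fin 191, ((((exj 1 j : ℤ) - G3) * (n1 j * Q) + ((exj 3 j : ℤ) - G3) * w j : ℤ)
      : ℝ)) / (Q * G) ≤ -12.060313447272 := by
    have h' : ((sumTo (fun j => ((exj 1 j : ℤ) - G3) * (n1 j * Q) + ((exj 3 j : ℤ) - G3) * w j) 191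
        * 10 ^ 12 : ℤ) : ℝ) ≤ ((-12060313447272 * (Q * G) : ℤ) : ℝ) := by exact_mod_cast s4
    rw [Int.cast_mul, sumTo_cast] at h'
    rw [div_le_iff₀ (by positivity)]
    have e : ((-12060313447272 * (Q * G) : ℤ) : ℝ) = -12060313447272 * ((Q : ℝ) * G) := by
      push_cast; ring
    rw [e] at h'
    have e10 : (((10 : ℤ) ^ 12 : ℤ) : ℝ) = 10 ^ 12 := by push_cast; ring
    rw [e10] at h'
    linarith
  have t3' := mul_le_mul_of_nonneg_left t3 hl2.le
  have t4' := mul_le_mul_of_nonneg_left t4 hl3.le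
  rw [← mul_div_assoc] at t3' t4'
  linarith

end Pool.Agent.H823R2.LP.Num
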