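import Pool.Agent.H823R2.LP.Refine

/-!
Entropy lower bound of refined sites with an ancilla qubit.
-/

open Finset Pool.Agent.H390R2.LP

set_option linter.unusedSectionVars false

namespace Pool.Agent.H823R2.LP

/-- concavity: moving the two eigenvalues apart decreases the entropy -/
theorem two_point {g0 g1 l : ℝ} (h0 : 0 ≤ g0) (h1 : 0 ≤ g1) (hl : 0 ≤ l)
    (hl2 : 2 * l ≤ g0 + g1) (hl3 : l * (g0 + g1 - l) ≤ g0 * g1) :
    Real.negMulLog l + Real.negMulLog (g0 + g1 - l) ≤ Real.negMulLog g0 + Real.negMulLog g1 := by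
  -- `(g0 - l) (g1 - l) ≥ 0`
  have hp : 0 ≤ (g0 - l) * (g1 - l) := by nlinarith
  have hl0 : l ≤ g0 ∧ l ≤ g1 := by
    rcases le_or_gt l g0 with h | h
    · refine ⟨h, ?_⟩
      rcases le_or_gt l g1 with h' | h'
      · exact h'
      · rcases h.eq_or_lt with e | e
        · subst e; nlinarith
        · nlinarith [mul_pos (sub_pos.mpr e) (sub_pos.mpr h')]
    · exfalso
      have : g1 - l ≤ 0 := by
        by_contra hc
        push Not at hc
        nlinarith [mul_pos (sub_pos.mpr h) hc]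
      nlinarith
  obtain ⟨ha, hb⟩ := hl0
  rcases hl2.eq_or_lt with e | e
  · have e0 : g0 = l := by linarith
    have e1 : g1 = l := by linarith
    subst e0
    rw [e1]
    simp
  · set d := g0 + g1 - l - l with hd
    have hd0 : 0 < d := by linarith
    have hc := Real.concaveOn_negMulLog
    have hL : l ∈ Set.Ici (0 : ℝ) := hl
    have hR : g0 + g1 - l ∈ Set.Ici (0 : ℝ) := by
      show 0 ≤ g0 + g1 - l
      linarith
    have t0 : 0 ≤ (g0 - l) / d := div_nonneg (by linarith) hd0.le
    have t1 : 0 ≤ (g1 - l) / d := div_nonneg (by linarith) hd0.le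
    have ts : (g0 - l) / d + (g1 - l) / d = 1 := by
      rw [← add_div, div_eq_one_iff_eq hd0.ne']
      rw [hd]; ring
    have ts' : (g1 - l) / d + (g0 - l) / d = 1 := by rw [add_comm]; exact ts
    have i1 := hc.2 hL hR t0 t1 ts
    have i2 := hc.2 hL hR t1 t0 ts'
    simp only [smul_eq_mul] at i1 i2
    have v1 : (g0 - l) / d * l + (g1 - l) / d * (g0 + g1 - l) = g1 := by
      have : (g0 - l) / d * l + (g1 - l) / d * (g0 + g1 - l)
          = ((g0 - l) / d + (g1 - l) / d) * l + (g1 - l) / d * d := by rw [hd]; ring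
      rw [this, ts, div_mul_cancel₀ _ hd0.ne']
      ring
    have v2 : (g1 - l) / d * l + (g0 - l) / d * (g0 + g1 - l) = g0 := by
      have : (g1 - l) / d * l + (g0 - l) / d * (g0 + g1 - l)
          = ((g0 - l) / d + (g1 - l) / d) * l + (g0 - l) / d * d := by rw [hd]; ring
      rw [this, ts, div_mul_cancel₀ _ hd0.ne']
      ring
    rw [v1] at i1
    rw [v2] at i2
    have : ((g0 - l) / d + (g1 - l) / d) * (Real.negMulLog l + Real.negMulLog (g0 + g1 - l))
        ≤ Real.negMulLog g0 + Real.negMulLog g1 := by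
      calc _ = ((g0 - l) / d * Real.negMulLog l + (g1 - l) / d * Real.negMulLog (g0 + g1 - l))
            + ((g1 - l) / d * Real.negMulLog l + (g0 - l) / d * Real.negMulLog (g0 + g1 - l)) := by
            ring
        _ ≤ _ := by linarith
    rwa [ts, one_mul] at this

/-- tangent bound -/
theorem negMulLog_ge {z r : ℝ} (hz : 0 ≤ z) (hr : 0 < r) :
    z * (1 - Real.log r) - z ^ 2 / r ≤ Real.negMulLog z := by
  rcases hz.eq_or_lt with e | e
  · rw [← e]; simp
  · have h := Real.log_le_sub_one_of_pos (div_pos e hr)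
    rw [Real.log_div e.ne' hr.ne'] at h
    have h2 := mul_le_mul_of_nonneg_left h hz
    rw [Real.negMulLog]
    have : z ^ 2 / r = z * (z / r) := by ring
    rw [this]
    nlinarith

/-- the bound for one subcell -/
theorem cell_bound {g0 g1 T D l r M : ℝ} (hM : 0 < M) (h0 : 0 ≤ g0) (h1 : 0 ≤ g1)
    (hT : g0 + g1 = T / M) (hD : g0 * g1 = D / M ^ 2) (hl : 0 < l) (hl2 : 2 * l ≤ T)
    (hl3 : l * (T - l) ≤ D) (hr : 0 < r) :
    (-l * Real.log l + (T - l) * (1 - Real.log r) - (T - l) ^ 2 / r + T * Real.log M) / M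
      ≤ Real.negMulLog g0 + Real.negMulLog g1 := by
  have i1 := two_point (g0 := g0) (g1 := g1) (l := l / M) h0 h1 (by positivity)
    (by rw [hT]; rw [← mul_div_assoc]; gcongr) (by
      rw [hT, hD, ← sub_div, div_mul_div_comm, ← pow_two]; gcongr)
  have i2 := negMulLog_ge (z := g0 + g1 - l / M) (r := r / M)
    (by rw [hT, ← sub_div]; exact div_nonneg (by linarith) hM.le) (by positivity)
  refine le_trans ?_ i1
  refine le_trans ?_ (add_le_add_right i2 _)
  rw [hT, Real.negMulLog, Real.log_div hl.ne' hM.ne', Real.log_div hr.ne' hM.ne']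
  apply le_of_eq
  field_simp
  ring

variable {k q0 m : ℕ}

theorem blk_fine {K : Type} [Fintype K] [DecidableEq K] (hm : 0 < m)
    (V0 : Fin k → Fin q0 × K → ℝ) (lam : Fin k → ℝ) (x : Fin (q0 * m)) :
    blk (fine m V0) lam x = (m : ℝ)⁻¹ • blk V0 lam (finProdFinEquiv.symm x).1 := by
  have hm' : (0 : ℝ) < m := by exact_mod_cast hm
  ext i j
  simp only [blk, fine, Matrix.smul_apply, smul_eq_mul, Finset.mul_sum]
  refine Finset.sum_congr rfl fun a _ => ?_
  have : ∀ p q : ℝ, lam a * (p / √m) * (q / √m) = (m : ℝ)⁻¹ * (lam a * p * q) := by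
    intro p q
    have h : lam a * (p / √m) * (q / √m) = lam a * p * q / (√m * √m) := by field_simp
    rw [h, Real.mul_self_sqrt hm'.le]
    field_simp
  exact this _ _

theorem exists_fine_site (hm : 0 < m) (V0 : Fin k → Fin q0 × Fin 2 → ℝ)
    (hv : ∀ a b, ∑ ω, V0 a ω * V0 b ω = if a = b then 1 else 0)
    (lam : Fin k → ℝ) (h0 : ∀ a, 0 ≤ lam a) (h1 : ∑ a, lam a = 1) (c : ℝ)
    (l r : Fin q0 → ℝ) (hl : ∀ j, 0 < l j)
    (hl2 : ∀ j, 2 * l j ≤ blk V0 lam j 0 0 + blk V0 lam j 1 1)
    (hl3 : ∀ j, l j * (blk V0 lam j 0 0 + blk V0 lam j 1 1 - l j)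
      ≤ blk V0 lam j 0 0 * blk V0 lam j 1 1 - blk V0 lam j 0 1 ^ 2) (hr : ∀ j, 0 < r j) :
    ∃ s : Site (Fin (q0 * m) × Fin 2) (Fin (q0 * m)), s.S = ∑ a, Real.negMulLog (lam a) ∧
      s.E (fun (_ : Unit) (x : Fin (q0 * m)) => ((x : ℕ) : ℝ) / m) =
        2 * (∑ a, lam a * ∑ ω, V0 a ω ^ 2 * (((ω.1 : ℕ) : ℝ) - c) ^ 2
          - ∑ a, ∑ b, √(lam a * lam b) * (∑ ω, V0 a ω * (((ω.1 : ℕ) : ℝ) - c) * V0 b ω) ^ 2)
          + (1 - 1 / m ^ 2) / 6 ∧
      ∑ j, (-l j * Real.log (l j) + (blk V0 lam j 0 0 + blk V0 lam j 1 1 - l j) *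
        (1 - Real.log (r j)) - (blk V0 lam j 0 0 + blk V0 lam j 1 1 - l j) ^ 2 / r j)
        + Real.log m ≤ s.h := by
  have hm' : (0 : ℝ) < m := by exact_mod_cast hm
  obtain ⟨s, hS, hE, g, hh, hg0, hgt, hgd⟩ :=
    exists_site (fine m V0) (fine_orth hm V0 hv) lam h0 h1
  refine ⟨s, hS, ?_, ?_⟩
  · rw [hE]
    rw [Fintype.sum_unique]
    have := fine_E hm V0 hv lam h0 h1 c
    rw [this]
    ring
  · rw [hh]
    set T : Fin q0 → ℝ := fun j => blk V0 lam j 0 0 + blk V0 lam j 1 1 with hTdef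
    set D : Fin q0 → ℝ := fun j => blk V0 lam j 0 0 * blk V0 lam j 1 1 - blk V0 lam j 0 1 ^ 2
      with hDdef
    have hcell : ∀ x : Fin (q0 * m), (-l (finProdFinEquiv.symm x).1 * Real.log (l (finProdFinEquiv.symm x).1)
        + (T (finProdFinEquiv.symm x).1 - l (finProdFinEquiv.symm x).1) *
          (1 - Real.log (r (finProdFinEquiv.symm x).1))
        - (T (finProdFinEquiv.symm x).1 - l (finProdFinEquiv.symm x).1) ^ 2 /
          r (finProdFinEquiv.symm x).1 + T (finProdFinEquiv.symm x).1 * Real.log m) / m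
        ≤ ∑ c, Real.negMulLog (g x c) := by
      intro x
      set j := (finProdFinEquiv.symm x).1
      have ht := hgt x
      have hd := hgd x
      rw [Fin.sum_univ_two] at ht
      rw [Fin.prod_univ_two] at hd
      rw [blk_fine hm] at ht hd
      rw [Matrix.trace_smul, Matrix.trace_fin_two] at ht
      rw [Matrix.det_fin_two] at hd
      have hsym : blk V0 lam j 1 0 = blk V0 lam j 0 1 := by
        simp only [blk]
        exact Finset.sum_congr rfl fun a _ => by ring
      rw [Fin.sum_univ_two]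
      refine cell_bound hm' (hg0 x 0) (hg0 x 1) ?_ (D := D j) ?_ (hl j) (hl2 j) (hl3 j) (hr j)
      · rw [ht]
        simp only [smul_eq_mul, hTdef]
        field_simp
        rfl
      · rw [hd]
        simp only [Matrix.smul_apply, smul_eq_mul, hDdef]
        have : (finProdFinEquiv.symm x).1 = j := rfl
        rw [this, hsym]
        field_simp
    have hsum := Finset.sum_le_sum fun x (_ : x ∈ (Finset.univ : Finset (Fin (q0 * m)))) => hcell x
    refine le_trans ?_ hsum
    rw [← finProdFinEquiv.sum_comp]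
    simp only [Equiv.symm_apply_apply]
    rw [Fintype.sum_prod_type]
    simp only [Finset.sum_const, Finset.card_univ, Fintype.card_fin, nsmul_eq_mul]
    have hT1 : ∑ j, T j = 1 := by
      have e : ∑ j, T j = ∑ a, lam a * ∑ ω, V0 a ω * V0 a ω := by
        simp only [hTdef, blk, Fintype.sum_prod_type, Fin.sum_univ_two]
        simp only [← Finset.sum_add_distrib, Finset.mul_sum]
        rw [Finset.sum_comm]
        exact Finset.sum_congr rfl fun a _ => Finset.sum_congr rfl fun j _ => by ring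
      rw [e]
      simp only [hv, if_true, mul_one, h1]
    have e2 : ∀ j, (m : ℝ) * ((-l j * Real.log (l j) + (T j - l j) * (1 - Real.log (r j))
        - (T j - l j) ^ 2 / r j + T j * Real.log m) / m)
        = (-l j * Real.log (l j) + (T j - l j) * (1 - Real.log (r j))
        - (T j - l j) ^ 2 / r j) + T j * Real.log m := by
      intro j
      field_simp
    simp only [e2]
    rw [Finset.sum_add_distrib, ← Finset.sum_mul, hT1, one_mul]

end Pool.Agent.H823R2.LP
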