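import Pool.Agent.H823R2.LP.SiteOf

/-!
Refinement of a coarse orthonormal family by the uniform superposition over `m` subcells.
-/

open Finset Pool.Agent.H390R2.LP

set_option linter.unusedSectionVars false

namespace Pool.Agent.H823R2.LP

variable {K : Type} [Fintype K] [DecidableEq K] {k q0 m : ℕ}

/-- the refined family -/
noncomputable def fine (m : ℕ) (V0 : Fin k → Fin q0 × K → ℝ) (a : Fin k) (ω : Fin (q0 * m) × K) : ℝ :=
  V0 a ((finProdFinEquiv.symm ω.1).1, ω.2) / √m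

theorem sum_fine (G : Fin q0 → Fin m → K → ℝ) :
    ∑ ω : Fin (q0 * m) × K, G (finProdFinEquiv.symm ω.1).1 (finProdFinEquiv.symm ω.1).2 ω.2
      = ∑ j, ∑ r, ∑ i, G j r i := by
  rw [Fintype.sum_prod_type]
  rw [← finProdFinEquiv.sum_comp]
  simp only [Equiv.symm_apply_apply]
  rw [Fintype.sum_prod_type]

theorem sum_lin (m : ℕ) (hm : 0 < m) :
    ∑ r : Fin m, ((r : ℕ) : ℝ) = m * (m - 1) / 2 := by
  rw [Fin.sum_univ_eq_sum_range (fun r => (r : ℝ)) m]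
  clear hm
  induction m with
  | zero => simp
  | succ n ih => rw [Finset.sum_range_succ, ih]; push_cast; ring

theorem sum_sq (m : ℕ) :
    ∑ r : Fin m, ((r : ℕ) : ℝ) ^ 2 = m * (m - 1) * (2 * m - 1) / 6 := by
  rw [Fin.sum_univ_eq_sum_range (fun r => (r : ℝ) ^ 2) m]
  induction m with
  | zero => simp
  | succ n ih => rw [Finset.sum_range_succ, ih]; push_cast; ring

theorem fine_orth (hm : 0 < m) (V0 : Fin k → Fin q0 × K → ℝ)
    (hv : ∀ a b, ∑ ω, V0 a ω * V0 b ω = if a = b then 1 else 0) (a b : Fin k) :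
    ∑ ω, fine m V0 a ω * fine m V0 b ω = if a = b then 1 else 0 := by
  have hm' : (0 : ℝ) < m := by exact_mod_cast hm
  have h := sum_fine (m := m) (fun j _ i => V0 a (j, i) / √m * (V0 b (j, i) / √m))
  simp only [fine]
  rw [h, ← hv a b, Fintype.sum_prod_type]
  refine Finset.sum_congr rfl fun j _ => ?_
  rw [Finset.sum_const, Finset.card_univ, Fintype.card_fin, nsmul_eq_mul, Finset.mul_sum]
  refine Finset.sum_congr rfl fun i _ => ?_
  rw [div_mul_div_comm, Real.mul_self_sqrt hm'.le]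
  field_simp

/-- first moment on subcells -/
theorem fine_X (hm : 0 < m) (V0 : Fin k → Fin q0 × K → ℝ)
    (hv : ∀ a b, ∑ ω, V0 a ω * V0 b ω = if a = b then 1 else 0) (c : ℝ) (a b : Fin k) :
    ∑ ω : Fin (q0 * m) × K, fine m V0 a ω * (((ω.1 : ℕ) : ℝ) / m) * fine m V0 b ω
      = ∑ ω, V0 a ω * (((ω.1 : ℕ) : ℝ) - c) * V0 b ω
        + (c + (m - 1) / (2 * m)) * (if a = b then 1 else 0) := by
  have hm' : (0 : ℝ) < m := by exact_mod_cast hm
  have h := sum_fine (m := m) (fun (j : Fin q0) (r : Fin m) i =>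
    V0 a (j, i) / √m * (((r : ℕ) + m * (j : ℕ) : ℝ) / m) * (V0 b (j, i) / √m))
  have e : ∀ ω : Fin (q0 * m) × K, ((ω.1 : ℕ) : ℝ)
      = ((finProdFinEquiv.symm ω.1).2 : ℕ) + m * ((finProdFinEquiv.symm ω.1).1 : ℕ) := by
    intro ω
    have := congrArg (fun x : Fin (q0 * m) => ((x : ℕ) : ℝ)) (finProdFinEquiv.apply_symm_apply ω.1)
    simp only [finProdFinEquiv_apply_val] at this
    rw [← this]
    push_cast
    rfl
  simp only [fine]
  have e2 : ∑ ω : Fin (q0 * m) × K, V0 a ((finProdFinEquiv.symm ω.1).1, ω.2) / √m *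
      (((ω.1 : ℕ) : ℝ) / m) * (V0 b ((finProdFinEquiv.symm ω.1).1, ω.2) / √m)
      = ∑ j, ∑ r : Fin m, ∑ i, V0 a (j, i) / √m * (((r : ℕ) + m * (j : ℕ) : ℝ) / m) *
        (V0 b (j, i) / √m) := by
    rw [← h]
    exact Finset.sum_congr rfl fun ω _ => by rw [e ω]
  rw [e2, ← hv a b, Fintype.sum_prod_type, Fintype.sum_prod_type, Finset.mul_sum,
    ← Finset.sum_add_distrib]
  refine Finset.sum_congr rfl fun j _ => ?_
  rw [Finset.sum_comm, Finset.mul_sum, ← Finset.sum_add_distrib]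
  refine Finset.sum_congr rfl fun i _ => ?_
  have h1 : ∀ r : Fin m, V0 a (j, i) / √m * (((r : ℕ) + m * (j : ℕ) : ℝ) / m) *
        (V0 b (j, i) / √m) = V0 a (j, i) * V0 b (j, i) / m ^ 2 * ((r : ℕ) + m * (j : ℕ)) := by
    intro r
    have : V0 a (j, i) / √m * (((r : ℕ) + m * (j : ℕ) : ℝ) / m) *
        (V0 b (j, i) / √m) = V0 a (j, i) * V0 b (j, i) / (√m * √m) / m * ((r : ℕ) + m * (j : ℕ)) := by
      field_simp
    rw [this, Real.mul_self_sqrt hm'.le]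
    field_simp
  simp only [h1]
  rw [← Finset.mul_sum, Finset.sum_add_distrib, sum_lin m hm, Finset.sum_const, Finset.card_univ,
    Fintype.card_fin, nsmul_eq_mul]
  field_simp
  ring

/-- second moment on subcells -/
theorem fine_X2 (hm : 0 < m) (V0 : Fin k → Fin q0 × K → ℝ)
    (hv : ∀ a b, ∑ ω, V0 a ω * V0 b ω = if a = b then 1 else 0) (c : ℝ) (a : Fin k) :
    ∑ ω : Fin (q0 * m) × K, fine m V0 a ω ^ 2 * (((ω.1 : ℕ) : ℝ) / m) ^ 2
      = ∑ ω, V0 a ω ^ 2 * (((ω.1 : ℕ) : ℝ) - c) ^ 2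
        + 2 * (c + (m - 1) / (2 * m)) * (∑ ω, V0 a ω * (((ω.1 : ℕ) : ℝ) - c) * V0 a ω)
        + (c + (m - 1) / (2 * m)) ^ 2 + (1 - 1 / m ^ 2) / 12 := by
  have hm' : (0 : ℝ) < m := by exact_mod_cast hm
  have h := sum_fine (m := m) (fun (j : Fin q0) (r : Fin m) i =>
    (V0 a (j, i) / √m) ^ 2 * (((r : ℕ) + m * (j : ℕ) : ℝ) / m) ^ 2)
  have e : ∀ ω : Fin (q0 * m) × K, ((ω.1 : ℕ) : ℝ)
      = ((finProdFinEquiv.symm ω.1).2 : ℕ) + m * ((finProdFinEquiv.symm ω.1).1 : ℕ) := by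
    intro ω
    have := congrArg (fun x : Fin (q0 * m) => ((x : ℕ) : ℝ)) (finProdFinEquiv.apply_symm_apply ω.1)
    simp only [finProdFinEquiv_apply_val] at this
    rw [← this]
    push_cast
    rfl
  simp only [fine]
  have e2 : ∑ ω : Fin (q0 * m) × K, (V0 a ((finProdFinEquiv.symm ω.1).1, ω.2) / √m) ^ 2 *
      (((ω.1 : ℕ) : ℝ) / m) ^ 2
      = ∑ j, ∑ r : Fin m, ∑ i, (V0 a (j, i) / √m) ^ 2 * (((r : ℕ) + m * (j : ℕ) : ℝ) / m) ^ 2 := by
    rw [← h]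
    exact Finset.sum_congr rfl fun ω _ => by rw [e ω]
  have hone : ∀ t : ℝ, t = t * ∑ ω, V0 a ω * V0 a ω := by
    intro t; rw [hv a a]; simp
  rw [e2, hone ((c + (m - 1) / (2 * m)) ^ 2 : ℝ), hone ((1 - 1 / (m : ℝ) ^ 2) / 12)]
  simp only [Fintype.sum_prod_type]
  rw [Finset.mul_sum, Finset.mul_sum, Finset.mul_sum, ← Finset.sum_add_distrib,
    ← Finset.sum_add_distrib, ← Finset.sum_add_distrib]
  refine Finset.sum_congr rfl fun j _ => ?_
  rw [Finset.sum_comm, Finset.mul_sum, Finset.mul_sum, Finset.mul_sum, ← Finset.sum_add_distrib,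
    ← Finset.sum_add_distrib, ← Finset.sum_add_distrib]
  refine Finset.sum_congr rfl fun i _ => ?_
  have h1 : ∀ r : Fin m, (V0 a (j, i) / √m) ^ 2 * (((r : ℕ) + m * (j : ℕ) : ℝ) / m) ^ 2
      = V0 a (j, i) ^ 2 / m ^ 3 * ((r : ℕ) ^ 2 + (2 * m * (j : ℕ)) * (r : ℕ)
        + (m * (j : ℕ)) ^ 2) := by
    intro r
    rw [div_pow, Real.sq_sqrt hm'.le]
    field_simp
    ring
  simp only [h1]
  rw [← Finset.mul_sum, Finset.sum_add_distrib, Finset.sum_add_distrib, ← Finset.mul_sum,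
    sum_lin m hm, sum_sq, Finset.sum_const, Finset.card_univ, Fintype.card_fin, nsmul_eq_mul]
  field_simp
  ring

/-- the energy of the refined site -/
theorem fine_E (hm : 0 < m) (V0 : Fin k → Fin q0 × K → ℝ)
    (hv : ∀ a b, ∑ ω, V0 a ω * V0 b ω = if a = b then 1 else 0)
    (lam : Fin k → ℝ) (h0 : ∀ a, 0 ≤ lam a) (h1 : ∑ a, lam a = 1) (c : ℝ) :
    (∑ a, lam a * ∑ ω : Fin (q0 * m) × K, fine m V0 a ω ^ 2 * (((ω.1 : ℕ) : ℝ) / m) ^ 2
      - ∑ a, ∑ b, √(lam a * lam b) *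
        (∑ ω : Fin (q0 * m) × K, fine m V0 a ω * (((ω.1 : ℕ) : ℝ) / m) * fine m V0 b ω) ^ 2)
    = (∑ a, lam a * ∑ ω, V0 a ω ^ 2 * (((ω.1 : ℕ) : ℝ) - c) ^ 2
      - ∑ a, ∑ b, √(lam a * lam b) * (∑ ω, V0 a ω * (((ω.1 : ℕ) : ℝ) - c) * V0 b ω) ^ 2)
      + (1 - 1 / m ^ 2) / 12 := by
  set β : ℝ := c + (m - 1) / (2 * m) with hβ
  set κ : ℝ := (1 - 1 / (m : ℝ) ^ 2) / 12 with hκ
  set X : Fin k → Fin k → ℝ := fun a b => ∑ ω, V0 a ω * (((ω.1 : ℕ) : ℝ) - c) * V0 b ω with hX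
  have e1 : ∀ a b, ∑ ω : Fin (q0 * m) × K, fine m V0 a ω * (((ω.1 : ℕ) : ℝ) / m) * fine m V0 b ω
      = X a b + β * (if a = b then 1 else 0) := fun a b => fine_X hm V0 hv c a b
  have e2 : ∀ a, ∑ ω : Fin (q0 * m) × K, fine m V0 a ω ^ 2 * (((ω.1 : ℕ) : ℝ) / m) ^ 2
      = ∑ ω, V0 a ω ^ 2 * (((ω.1 : ℕ) : ℝ) - c) ^ 2 + 2 * β * X a a + β ^ 2 + κ :=
    fun a => fine_X2 hm V0 hv c a
  simp only [e1, e2]
  have e3 : ∀ a b, √(lam a * lam b) * (X a b + β * (if a = b then 1 else 0)) ^ 2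
      = √(lam a * lam b) * X a b ^ 2 + (if a = b then lam a * (2 * β * X a a + β ^ 2) else 0) := by
    intro a b
    by_cases hab : a = b
    · subst hab
      simp only [if_true, mul_one]
      rw [Real.sqrt_mul_self (h0 a)]
      ring
    · simp [hab]
  simp only [e3, Finset.sum_add_distrib, Finset.sum_ite_eq, Finset.mem_univ, if_true]
  have e4 : ∑ a, lam a * (∑ ω, V0 a ω ^ 2 * (((ω.1 : ℕ) : ℝ) - c) ^ 2 + 2 * β * X a a + β ^ 2 + κ)
      = ∑ a, lam a * ∑ ω, V0 a ω ^ 2 * (((ω.1 : ℕ) : ℝ) - c) ^ 2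
        + ∑ a, lam a * (2 * β * X a a + β ^ 2) + κ := by
    have : κ = ∑ a, lam a * κ := by rw [← Finset.sum_mul, h1, one_mul]
    rw [this, ← Finset.sum_add_distrib, ← Finset.sum_add_distrib]
    refine Finset.sum_congr rfl fun a _ => ?_
    rw [← this]
    ring
  rw [e4]
  ring

end Pool.Agent.H823R2.LP
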