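import Pool.Agent.H390R2.LP.Iface

/-!
One-site data from an orthonormal family on `X × K` (positions × ancilla).
-/

open Finset Pool.Agent.H390R2.LP

set_option linter.unusedSectionVars false

namespace Pool.Agent.H823R2.LP

variable {X K : Type} [Fintype X] [DecidableEq X] [Fintype K] [DecidableEq K] {k : ℕ}

/-- the ancilla block of the state at position `x` -/
def blk (v : Fin k → X × K → ℝ) (lam : Fin k → ℝ) (x : X) : Matrix K K ℝ :=
  fun i j => ∑ a, lam a * v a (x, i) * v a (x, j)

theorem blk_herm (v : Fin k → X × K → ℝ) (lam : Fin k → ℝ) (x : X) :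
    (blk v lam x).IsHermitian := by
  ext i j
  simp only [Matrix.conjTranspose_apply, blk, star_trivial]
  exact sum_congr rfl fun a _ => by ring

theorem blk_quad (v : Fin k → X × K → ℝ) (lam : Fin k → ℝ) (x : X) (p q : K → ℝ) :
    ∑ i, ∑ j, p i * blk v lam x i j * q j
      = ∑ a, lam a * (∑ i, v a (x, i) * p i) * (∑ j, v a (x, j) * q j) := by
  simp only [blk, Finset.mul_sum, Finset.sum_mul]
  rw [sum_comm]
  have : ∀ j : K, ∑ i : K, ∑ a : Fin k, p i * (lam a * v a (x, i) * v a (x, j)) * q j
      = ∑ a : Fin k, ∑ i : K, p i * (lam a * v a (x, i) * v a (x, j)) * q j := fun j => sum_comm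
  simp only [this]
  rw [sum_comm]
  refine sum_congr rfl fun a _ => ?_
  refine sum_congr rfl fun j _ => ?_
  exact sum_congr rfl fun i _ => by ring

theorem blk_psd (v : Fin k → X × K → ℝ) (lam : Fin k → ℝ) (h0 : ∀ a, 0 ≤ lam a) (x : X) :
    (blk v lam x).PosSemidef := by
  refine Matrix.PosSemidef.of_dotProduct_mulVec_nonneg (blk_herm v lam x) fun p => ?_
  have h := blk_quad v lam x p p
  have e : star p ⬝ᵥ (blk v lam x).mulVec p = ∑ i, ∑ j, p i * blk v lam x i j * p j := by
    simp only [dotProduct, Matrix.mulVec, Finset.mul_sum, Pi.star_apply, star_trivial]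
    exact sum_congr rfl fun i _ => sum_congr rfl fun j _ => by ring
  rw [e, h]
  refine sum_nonneg fun a _ => ?_
  have := mul_nonneg (h0 a) (mul_self_nonneg (∑ i, v a (x, i) * p i))
  nlinarith [this]

/-- one-site data from an orthonormal family -/
theorem exists_site (v : Fin k → X × K → ℝ)
    (hv : ∀ a b, ∑ ω, v a ω * v b ω = if a = b then 1 else 0)
    (lam : Fin k → ℝ) (h0 : ∀ a, 0 ≤ lam a) (h1 : ∑ a, lam a = 1) :
    ∃ s : Site (X × K) X, s.S = ∑ a, Real.negMulLog (lam a) ∧
      (∀ (I : Type) [Fintype I] (f : I → X → ℝ), s.E f =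
        2 * ∑ i, (∑ a, lam a * ∑ ω, v a ω ^ 2 * f i ω.1 ^ 2
          - ∑ a, ∑ b, √(lam a * lam b) * (∑ ω, v a ω * f i ω.1 * v b ω) ^ 2)) ∧
      ∃ g : X → K → ℝ, s.h = ∑ x, ∑ c, Real.negMulLog (g x c) ∧ (∀ x c, 0 ≤ g x c) ∧
        (∀ x, ∑ c, g x c = (blk v lam x).trace) ∧ (∀ x, ∏ c, g x c = (blk v lam x).det) := by
  classical
  -- vectors in Euclidean space
  let V : Fin k → EuclideanSpace ℝ (X × K) := fun a => WithLp.toLp 2 (v a)
  have hV : Orthonormal ℝ V := by
    rw [orthonormal_iff_ite]
    intro a b
    have := hv b a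
    simp only [V, PiLp.inner_apply, RCLike.inner_apply, conj_trivial]
    rw [this]
    simp [eq_comm]
  have hcard : Fintype.card (Fin k) ≤ Fintype.card (X × K) := by
    have := hV.linearIndependent.fintype_card_le_finrank
    simpa using this
  obtain ⟨e⟩ := Function.Embedding.nonempty_of_card_le hcard
  let U0 : X × K → EuclideanSpace ℝ (X × K) := Function.extend e V 0
  have hU0 : ∀ a, U0 (e a) = V a := fun a => e.injective.extend_apply _ _ _
  have hU : Orthonormal ℝ ((Set.range e).domRestrict U0) := by
    rw [orthonormal_iff_ite]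
    rintro ⟨x, hx⟩ ⟨y, hy⟩
    obtain ⟨a, ha⟩ := hx
    obtain ⟨b, hb⟩ := hy
    have := (orthonormal_iff_ite.mp hV) a b
    change inner ℝ (U0 x) (U0 y) = _
    subst ha
    subst hb
    rw [hU0, hU0, this]
    by_cases hab : a = b
    · subst hab; simp
    · rw [if_neg hab, if_neg]
      intro h
      exact hab (e.injective (congrArg Subtype.val h))
  obtain ⟨B, hB⟩ := hU.exists_orthonormalBasis_extension_of_card_eq (by simp)
  let lam' : X × K → ℝ := Function.extend e lam 0
  have hlam' : ∀ a, lam' (e a) = lam a := fun a => e.injective.extend_apply _ _ _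
  have hlam'0 : ∀ ω, ω ∉ Set.range e → lam' ω = 0 := by
    intro ω hω
    have : ¬ ∃ a, e a = ω := fun ⟨a, ha⟩ => hω ⟨a, ha⟩
    simp [lam', Function.extend_apply' _ _ _ this]
  have hBv : ∀ a ω, B (e a) ω = v a ω := by
    intro a ω
    rw [hB _ ⟨a, rfl⟩, hU0]
  -- block spectral data
  let Hm := fun x : X => blk_herm v lam x
  let g : X → K → ℝ := fun x c => (Hm x).eigenvalues c
  let w : X × K → X × K → ℝ := fun c ω => if ω.1 = c.1 then (Hm c.1).eigenvectorBasis c.2 ω.2 else 0
  have hw_orth1 : ∀ (x : X) (c c' : K), ∑ i, (Hm x).eigenvectorBasis c i * (Hm x).eigenvectorBasis c' i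
      = if c = c' then 1 else 0 := by
    intro x c c'
    have := (orthonormal_iff_ite.mp (Hm x).eigenvectorBasis.orthonormal) c' c
    simp only [PiLp.inner_apply, RCLike.inner_apply, conj_trivial] at this
    rw [this]
    simp [eq_comm]
  have hsumlam : ∀ F : X × K → ℝ, ∑ ω, lam' ω * F ω = ∑ a, lam a * F (e a) := by
    intro F
    symm
    refine Fintype.sum_of_injective e e.injective _ _ ?_ ?_
    · intro ω hω
      simp [hlam'0 ω hω]
    · intro a
      simp [hlam']
  refine ⟨{ pos := Prod.fst
            u := fun a ω => B a ω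
            w := w
            lam := lam'
            g := fun c => g c.1 c.2
            lab := Prod.fst
            u_orth := ?_
            w_orth := ?_
            lam_nonneg := ?_
            lam_sum := ?_
            w_supp := ?_
            w_diag := ?_ }, ?_, ?_, g, ?_, ?_, ?_, ?_⟩
  · intro a b
    have := (orthonormal_iff_ite.mp B.orthonormal) b a
    simp only [PiLp.inner_apply, RCLike.inner_apply, conj_trivial] at this
    rw [this]
    simp [eq_comm]
  · intro a b
    rw [Fintype.sum_prod_type]
    simp only [w]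
    by_cases hab : a.1 = b.1
    · rw [Finset.sum_eq_single a.1]
      · obtain ⟨x, c⟩ := a
        obtain ⟨x', c'⟩ := b
        simp only at hab
        subst hab
        simp only [if_true]
        rw [hw_orth1]
        simp
      · intro x _ hx
        exact Finset.sum_eq_zero fun i _ => by simp [hx]
      · simp
    · rw [Finset.sum_eq_zero]
      · have : a ≠ b := fun h => hab (by rw [h])
        simp [this]
      · intro x _
        refine Finset.sum_eq_zero fun i _ => ?_
        by_cases h1 : x = a.1
        · have : x ≠ b.1 := by rw [h1]; exact hab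
          simp [this]
        · simp [h1]
  · intro ω
    by_cases hω : ω ∈ Set.range e
    · obtain ⟨a, rfl⟩ := hω
      rw [hlam']
      exact h0 a
    · rw [hlam'0 ω hω]
  · have := hsumlam (fun _ => 1)
    simp only [mul_one] at this
    rw [this, h1]
  · intro c ω h
    simp only [w]
    rw [if_neg h]
  · intro c c' hcc
    obtain ⟨x, c⟩ := c
    obtain ⟨x', c'⟩ := c'
    simp only at hcc
    subst hcc
    have key : ∀ (a : Fin k) (d : K), (∑ ω, B (e a) ω * w (x, d) ω)
        = ∑ i, v a (x, i) * (Hm x).eigenvectorBasis d i := by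
      intro a d
      rw [Fintype.sum_prod_type, Finset.sum_eq_single x]
      · refine Finset.sum_congr rfl fun i _ => ?_
        simp [w, hBv]
      · intro y _ hy
        exact Finset.sum_eq_zero fun i _ => by simp [w, hy]
      · simp
    have h2 : ∑ a, lam' a * (∑ ω, B a ω * w (x, c) ω) * (∑ ω, B a ω * w (x, c') ω)
        = ∑ a, lam a * (∑ i, v a (x, i) * (Hm x).eigenvectorBasis c i) *
          (∑ i, v a (x, i) * (Hm x).eigenvectorBasis c' i) := by
      have := hsumlam (fun a => (∑ ω, B a ω * w (x, c) ω) * (∑ ω, B a ω * w (x, c') ω))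
      simp only [← mul_assoc] at this
      rw [this]
      exact Finset.sum_congr rfl fun a _ => by rw [key, key]
    rw [h2, ← blk_quad]
    have h3 : ∀ i, ∑ j, blk v lam x i j * (Hm x).eigenvectorBasis c' j
        = g x c' * (Hm x).eigenvectorBasis c' i := by
      intro i
      have := congrFun ((Hm x).mulVec_eigenvectorBasis c') i
      simpa [Matrix.mulVec, dotProduct, g] using this
    have h4 : ∑ i, ∑ j, (Hm x).eigenvectorBasis c i * blk v lam x i j * (Hm x).eigenvectorBasis c' j
        = ∑ i, (Hm x).eigenvectorBasis c i * (g x c' * (Hm x).eigenvectorBasis c' i) := by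
      refine Finset.sum_congr rfl fun i _ => ?_
      rw [← h3 i, Finset.mul_sum]
      exact Finset.sum_congr rfl fun j _ => by ring
    rw [h4]
    have h5 : ∑ i, (Hm x).eigenvectorBasis c i * (g x c' * (Hm x).eigenvectorBasis c' i)
        = g x c' * ∑ i, (Hm x).eigenvectorBasis c i * (Hm x).eigenvectorBasis c' i := by
      rw [Finset.mul_sum]
      exact Finset.sum_congr rfl fun j _ => by ring
    rw [h5, hw_orth1]
    by_cases hc : c = c'
    · simp [hc]
    · simp [hc]
  · -- entropy
    simp only [Site.S]
    symm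
    refine Fintype.sum_of_injective e e.injective _ _ ?_ ?_
    · intro ω hω
      simp [hlam'0 ω hω]
    · intro a
      simp [hlam']
  · intro I _ f
    simp only [Site.E]
    congr 1
    refine Finset.sum_congr rfl fun i _ => ?_
    congr 1
    · rw [hsumlam]
      exact Finset.sum_congr rfl fun a _ => by simp only [hBv]
    · symm
      refine Fintype.sum_of_injective e e.injective _ _ ?_ ?_
      · intro ω hω
        simp [hlam'0 ω hω]
      · intro a
        refine Fintype.sum_of_injective e e.injective _ _ ?_ ?_
        · intro ω hω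
          simp [hlam'0 ω hω]
        · intro b
          simp only [hlam', hBv]
  · simp only [Site.h]
    rw [Fintype.sum_prod_type]
  · intro x c
    exact (blk_psd v lam h0 x).eigenvalues_nonneg c
  · intro x
    have := (Hm x).trace_eq_sum_eigenvalues
    simpa [g] using this.symm
  · intro x
    have := (Hm x).det_eq_prod_eigenvalues
    simpa [g] using this.symm

end Pool.Agent.H823R2.LP
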